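import Pool.Agent.W662.CB.Stmts

set_option autoImplicit false

open MeasureTheory Filter Topology Complex
open scoped InnerProductSpace ENNReal

namespace Pool.Agent.W110.CB.B3

open Pool.Agent.W662.CB

noncomputable section

theorem sl_star {H K : Type} [NormedAddCommGroup H] [InnerProductSpace ℂ H] [CompleteSpace H]
    [NormedAddCommGroup K] [InnerProductSpace ℂ K] [CompleteSpace K]
    (J : H →L[ℂ] K) (X : K →L[ℂ] K) : star (sl J X) = sl J (star X) := by
  unfold sl
  rw [ContinuousLinearMap.star_eq_adjoint, ContinuousLinearMap.star_eq_adjoint,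
    ContinuousLinearMap.adjoint_comp, ContinuousLinearMap.adjoint_comp,
    ContinuousLinearMap.adjoint_adjoint]
  rfl

theorem b3 (h1 : S_B1) (h2 : S_B2) (hA : S_A2) : S_B3 := by
  intro H K _ _ _ _ _ _ M ξ U κ V J E T δ hM hB X hX
  obtain ⟨-, hUJ, hJU, -, hJn, hJs, hE0, -, hEb⟩ := h1 H K M ξ U κ V J E T δ hM hB
  have hVE : ∀ (t : ℝ) (z : ℂ) (w : K), V t (E z w) = E z (V t w) := fun t z w =>
    congrArg (fun Z : K →L[ℂ] K => Z w) (hB.V_E t z)
  have hVX : ∀ (t : ℝ) (w : K), V t (X w) = X (V t w) := fun t w =>
    (congrArg (fun Z : K →L[ℂ] K => Z w) (hX.1 t)).symm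
  have hVV : ∀ (t : ℝ) (w : K), V t (V (-t) w) = w := by
    intro t w
    have h := congrArg (fun Z : K →L[ℂ] K => Z w) (hB.V_add t (-t))
    simp only [add_neg_cancel, hB.V_zero] at h
    exact h.symm
  have hF0 : sl J (E (-0) * X * E 0) = sl J X := by
    ext v
    simp only [sl, ContinuousLinearMap.comp_apply, ContinuousLinearMap.mul_apply, neg_zero,
      hE0, hB.E_J]
  have hAn : IsAn M U (fun z : ℂ => sl J (E (-z) * X * E z)) := by
    refine ⟨?_, ?_, ?_, ?_, ?_⟩
    · intro z
      have h3 := (h2 H K M U κ V J E T δ hB X hX).2.2 (-z) z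
      exact (h2 H K M U κ V J E T δ hB _ h3).1
    · intro v
      have h4 : Differentiable ℂ fun z : ℂ => E (-z) := hB.E_diff.comp differentiable_neg
      have h5 : Differentiable ℂ fun z : ℂ => E z (J v) :=
        hB.E_diff.clm_apply (differentiable_const _)
      have h6 : Differentiable ℂ fun z : ℂ => X (E z (J v)) :=
        X.differentiable.comp h5
      have h7 : Differentiable ℂ fun z : ℂ => E (-z) (X (E z (J v))) := h4.clm_apply h6
      exact (ContinuousLinearMap.adjoint J).differentiable.comp h7
    · intro v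
      have h4 : Differentiable ℂ fun z : ℂ => E (-z) := hB.E_diff.comp differentiable_neg
      have h5 : Differentiable ℂ fun z : ℂ => E z (J v) :=
        hB.E_diff.clm_apply (differentiable_const _)
      have h6 : Differentiable ℂ fun z : ℂ => (star X) (E z (J v)) :=
        (star X).differentiable.comp h5
      have h7 : Differentiable ℂ fun z : ℂ => E (-z) ((star X) (E z (J v))) := h4.clm_apply h6
      have h8 := (ContinuousLinearMap.adjoint J).differentiable.comp h7
      have h9 : (fun z : ℂ => star (sl J (E (-(starRingEnd ℂ z)) * X * E (starRingEnd ℂ z))) v) =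
          fun z : ℂ => ContinuousLinearMap.adjoint J (E (-z) ((star X) (E z (J v)))) := by
        funext z
        rw [sl_star, star_mul, star_mul, hB.E_star, hB.E_star]
        simp [sl, ContinuousLinearMap.comp_apply, ContinuousLinearMap.mul_apply]
      exact h9 ▸ h8
    · intro t
      show sl J (E (-(t : ℂ)) * X * E (t : ℂ)) = sgm U t (sl J (E (-0) * X * E 0))
      rw [hF0]
      ext v
      unfold sgm
      rw [hM.star_eq]
      simp only [sl, ContinuousLinearMap.comp_apply, ContinuousLinearMap.mul_apply]
      rw [hJU (-t) v, hUJ]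
      rw [hVE, hVX, hVE, hVV]
      simp
    · intro R
      obtain ⟨C, hC⟩ := hEb R
      have hC0 : 0 ≤ C ∨ R < 0 := by
        by_cases hR : R < 0
        · exact Or.inr hR
        · left
          have := hC 0 (by simpa using not_lt.1 hR)
          exact (norm_nonneg _).trans this
      refine ⟨C * ‖X‖ * C, fun z hz => ?_⟩
      have hC0 : 0 ≤ C := (norm_nonneg _).trans (hC z hz)
      have h10 : ‖sl J (E (-z) * X * E z)‖ ≤ ‖E (-z) * X * E z‖ := by
        refine ContinuousLinearMap.opNorm_le_bound _ (norm_nonneg _) fun v => ?_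
        simp only [sl, ContinuousLinearMap.comp_apply]
        refine (hJs _).trans ?_
        refine (ContinuousLinearMap.le_opNorm _ _).trans ?_
        rw [hJn]
      refine h10.trans ?_
      refine (norm_mul_le _ _).trans ?_
      refine mul_le_mul ((norm_mul_le _ _).trans ?_) (hC z hz) (norm_nonneg _) (by positivity)
      exact mul_le_mul_of_nonneg_right (hC (-z) (by simpa using hz)) (norm_nonneg _)
  refine ⟨hAn, ?_⟩
  have h := hA H M ξ U hM _ hAn 0
  simp only [zero_sub, neg_neg] at h
  rw [hF0] at h
  exact h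

end

end Pool.Agent.W110.CB.B3
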